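import Pool.Agent.TRB.Fold
import Pool.Agent.TRB.Main
import Pool.Agent.TRB.GeoData

/-!
# MP_a68c4d_an: a bounded immediate basin of Traub's map

For all large `n` there is a polynomial `p(z) = z P(z ^ n)` of degree at least `2` whose simple root `0` has a bounded
immediate basin under Traub's map `T_p`: the immediate basin is contained in the open unit disc.
-/

set_option autoImplicit false

namespace Pool.Agent.Results.MP_a68c4d_an.BoundedBasin

open Polynomial Pool.Agent.Hhelper2.Traub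

theorem result : ∃ N : ℕ, ∀ n : ℕ, N ≤ n → ∃ P p : ℂ[X], p = X * P.comp (X ^ n) ∧
    2 ≤ p.natDegree ∧ p.eval 0 = 0 ∧ (derivative p).eval 0 ≠ 0 ∧
    (∀ z ∈ immediateBasin (sphereMap (traub p 1)) ((0 : ℂ) : OnePoint ℂ),
      ∃ w : ℂ, z = (w : OnePoint ℂ) ∧ ‖w‖ < 1) ∧
    ¬ Unbounded (immediateBasin (sphereMap (traub p 1)) ((0 : ℂ) : OnePoint ℂ)) := by
  obtain ⟨D⟩ := Pool.Agent.TRB.Geo.data_exists
  obtain ⟨N, hN⟩ := D.main
  refine ⟨N, fun n hn => ?_⟩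
  obtain ⟨P, V, h1, h2, h3, h4, h5, h6, h7⟩ := hN n hn
  obtain ⟨q1, q2, q3, q4⟩ := Pool.Agent.TRB.cert_fold P n h1 h2 V h3 h4 h5 h6 h7
  refine ⟨P, _, rfl, q1, q2, q3, q4, ?_⟩
  intro hU
  obtain ⟨z, hz, hz'⟩ := hU 1
  obtain ⟨w, hw, hw1⟩ := q4 z hz
  exact absurd (hz' w hw) (not_lt.2 hw1.le)

end Pool.Agent.Results.MP_a68c4d_an.BoundedBasin
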