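import Pool.Agent.Hhelper2.Traub.Main

/-!
# MP_a68c4d_an: unbounded immediate basins of Traub's map

Let `T_{p,δ} = N_p - δ p(N_p) / p'` (`δ = 1`: Traub's map, `δ = 0`: Newton's map), a rational map of the Riemann sphere
`OnePoint ℂ`.

* If the Taylor coefficients of `w ↦ p (a + u w)` at a root `a` of `p` are nonnegative multiples of one number `c ≠ 0`,
  then the whole ray `a + u [0, ∞)` lies in the immediate basin of `a` under `T_{p,δ}`, `0 ≤ δ ≤ 1`.
* This covers every real root of a real polynomial that is the rightmost or the leftmost root (compare real parts), in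
  particular the extreme roots of real-rooted polynomials,
* and all roots of `z ^ k (z ^ n - β) ^ l`.
-/

set_option autoImplicit false

namespace Pool.Agent.Results.MP_a68c4d_an.PositiveRays

open Polynomial Pool.Agent.Hhelper2.Traub

theorem result :
    (∀ (p : ℂ[X]) (a u c : ℂ), p ≠ 0 → p.eval a = 0 → u ≠ 0 → c ≠ 0 →
      (∀ k, ∃ t : ℝ, 0 ≤ t ∧ (p.comp (C a + C u * X)).coeff k = c * t) →
      ∀ δ : ℝ, 0 ≤ δ → δ ≤ 1 →
        (∀ t : ℝ, 0 ≤ t → ((a + u * t : ℂ) : OnePoint ℂ)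
          ∈ immediateBasin (sphereMap (traub p δ)) (a : OnePoint ℂ)) ∧
        Unbounded (immediateBasin (sphereMap (traub p δ)) (a : OnePoint ℂ))) ∧
    (∀ (p : ℝ[X]) (a : ℝ), p ≠ 0 → p.eval a = 0 →
      ((∀ z : ℂ, aeval z p = 0 → z.re ≤ a) ∨ (∀ z : ℂ, aeval z p = 0 → a ≤ z.re)) →
      ∀ δ : ℝ, 0 ≤ δ → δ ≤ 1 →
        Unbounded (immediateBasin (sphereMap (traub (p.map (algebraMap ℝ ℂ)) δ))
          ((a : ℂ) : OnePoint ℂ))) ∧
    (∀ (k n l : ℕ) (β a : ℂ), 1 ≤ n → (X ^ k * (X ^ n - C β) ^ l : ℂ[X]).eval a = 0 →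
      ∀ δ : ℝ, 0 ≤ δ → δ ≤ 1 →
        Unbounded (immediateBasin (sphereMap (traub (X ^ k * (X ^ n - C β) ^ l) δ))
          (a : OnePoint ℂ))) := by
  refine ⟨?_, ?_, ?_⟩
  · intro p a u c hp ha hu hc h δ hδ hδ1
    have h1 := general p hp a u c ha hu hc h δ hδ hδ1
    exact ⟨h1, unbounded_of_ray a u hu _ h1⟩
  · intro p a hp ha hz δ hδ hδ1
    rcases hz with hz | hz
    · refine unbounded_of_ray (a : ℂ) (((1 : ℝ) : ℝ) : ℂ) (by norm_num) _
        (real_case p hp a ha 1 (Or.inl rfl) (fun z h => ?_) δ hδ hδ1)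
      have := hz z h
      linarith
    · refine unbounded_of_ray (a : ℂ) (((-1 : ℝ) : ℝ) : ℂ) (by norm_num) _
        (real_case p hp a ha (-1) (Or.inr rfl) (fun z h => ?_) δ hδ hδ1)
      have := hz z h
      linarith
  · intro k n l β a hn ha δ hδ hδ1
    obtain ⟨u, hu, h⟩ := cyclic_case k n l β hn a ha δ hδ hδ1
    exact unbounded_of_ray a u hu _ h

end Pool.Agent.Results.MP_a68c4d_an.PositiveRays
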